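import Mathlib

set_option autoImplicit false
set_option linter.unusedSectionVars false

/-!
Families with comatching number two whose nerves have homology in arbitrarily high degrees.
-/

namespace Pool.Agent.Results.MP_587f0f_co.NoConstant

open Finset

/-! ### Definitions -/

/-- `τ(X, F) ≤ k`: every finite subfamily `M` such that for each `f ∈ M` there is a point `a ∉ f`
which lies in all other members of `M` has at most `k` members -/
def ComatchingLe {X : Type} (F : Set (Set X)) (k : ℕ) : Prop :=
  ∀ M : Finset (Set X), (∀ f ∈ M, f ∈ F) →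
    (∀ f ∈ M, ∃ a, a ∉ f ∧ ∀ g ∈ M, g ≠ f → a ∈ g) → M.card ≤ k

/-- the nerve of a family: the finite subfamilies with a common point -/
def nerve {X : Type} (F : Set (Set X)) : Set (Finset (Set X)) :=
  {σ | (∀ f ∈ σ, f ∈ F) ∧ ∃ x, ∀ f ∈ σ, x ∈ f}

section homology

variable {V : Type}

/-- the ordered simplex `t` with `n` vertices (repetitions allowed) belongs to the complex `K`: its
vertex set is a face -/
def InCx (K : Set (Finset V)) {n : ℕ} (t : Fin n → V) : Prop :=
  ∃ σ ∈ K, ∀ v, v ∈ σ ↔ ∃ i, t i = v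

/-- the rational ordered chains with `n` vertices (degree `n - 1`); for `n = 0` this is the
augmentation -/
abbrev Chain (V : Type) (n : ℕ) := (Fin n → V) →₀ ℚ

/-- the chain `z` is a chain of the complex `K` -/
def IsChain (K : Set (Finset V)) {n : ℕ} (z : Chain V n) : Prop :=
  ∀ t ∈ z.support, InCx K t

/-- the boundary -/
noncomputable def bd {n : ℕ} : Chain V (n + 1) →ₗ[ℚ] Chain V n :=
  Finsupp.lsum ℚ fun t => ∑ i : Fin (n + 1),
    ((-1 : ℚ) ^ (i : ℕ)) • Finsupp.lsingle (fun j => t (i.succAbove j))

/-- `H̃_i(K; ℚ) = 0`: every reduced `i`-cycle of `K` is the boundary of an `(i+1)`-chain of `K` -/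
def HomologyVanishes (K : Set (Finset V)) (i : ℕ) : Prop :=
  ∀ z : Chain V (i + 1), IsChain K z → bd z = 0 →
    ∃ w : Chain V (i + 2), IsChain K w ∧ bd w = z

/-- the induced subcomplex on `W` -/
def induced (K : Set (Finset V)) (W : Set V) : Set (Finset V) :=
  {σ | σ ∈ K ∧ ∀ v ∈ σ, v ∈ W}

/-- `K` is `d`-Leray over `ℚ` -/
def IsLeray (d : ℕ) (K : Set (Finset V)) : Prop :=
  ∀ (W : Set V) (i : ℕ), d ≤ i → HomologyVanishes (induced K W) i

end homology

/-! ### Chains -/

section chains

variable {V U : Type}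

theorem bd_single {n : ℕ} (t : Fin (n + 1) → V) (c : ℚ) :
    bd (Finsupp.single t c) =
      ∑ i : Fin (n + 1), Finsupp.single (fun j => t (i.succAbove j)) ((-1 : ℚ) ^ (i : ℕ) * c) := by
  unfold bd
  rw [Finsupp.lsum_single, LinearMap.sum_apply]
  refine Finset.sum_congr rfl fun i _ => ?_
  rw [LinearMap.smul_apply, Finsupp.lsingle_apply, Finsupp.smul_single, smul_eq_mul]

/-- push forward -/
noncomputable def push {n : ℕ} (f : V → U) : Chain V n →ₗ[ℚ] Chain U n :=
  Finsupp.lmapDomain ℚ ℚ fun t => f ∘ t

theorem push_single {n : ℕ} (f : V → U) (t : Fin n → V) (c : ℚ) :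
    push f (Finsupp.single t c) = Finsupp.single (f ∘ t) c := by
  unfold push
  rw [Finsupp.lmapDomain_apply, Finsupp.mapDomain_single]

theorem bd_push {n : ℕ} (f : V → U) (z : Chain V (n + 1)) : bd (push f z) = push f (bd z) := by
  induction z using Finsupp.induction_linear with
  | zero => simp
  | add x y hx hy => rw [map_add, map_add, map_add, map_add, hx, hy]
  | single t c =>
    rw [push_single, bd_single, bd_single, map_sum]
    refine Finset.sum_congr rfl fun i _ => ?_
    rw [push_single]
    rfl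

/-- the cone with apex `s` -/
noncomputable def cone {n : ℕ} (s : V) : Chain V n →ₗ[ℚ] Chain V (n + 1) :=
  Finsupp.lmapDomain ℚ ℚ fun t => (Fin.cons s t : Fin (n + 1) → V)

theorem cone_single {n : ℕ} (s : V) (t : Fin n → V) (c : ℚ) :
    cone s (Finsupp.single t c) = Finsupp.single (Fin.cons s t : Fin (n + 1) → V) c := by
  unfold cone
  rw [Finsupp.lmapDomain_apply, Finsupp.mapDomain_single]

theorem bd_cone {n : ℕ} (s : V) (z : Chain V (n + 1)) :
    bd (cone s z) = z - cone s (bd z) := by
  induction z using Finsupp.induction_linear with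
  | zero => simp
  | add x y hx hy => rw [map_add, map_add, map_add, map_add, hx, hy]; abel
  | single t c =>
    rw [cone_single, bd_single, bd_single, map_sum, Fin.sum_univ_succ, sub_eq_add_neg,
      ← Finset.sum_neg_distrib]
    congr 1
    · congr 1
      simp
    · refine Finset.sum_congr rfl fun i _ => ?_
      rw [cone_single, ← Finsupp.single_neg]
      congr 1
      · ext j
        refine Fin.cases ?_ (fun j => ?_) j
        · simp
        · simp
      · rw [Fin.val_succ, pow_succ]
        ring

end chains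

section chains2

variable {V U : Type}

theorem bd_cone_zero (s : V) (z : Chain V 0) : bd (cone s z) = z := by
  induction z using Finsupp.induction_linear with
  | zero => simp
  | add x y hx hy => rw [map_add, map_add, hx, hy]
  | single t c =>
    rw [cone_single, bd_single, Fin.sum_univ_succ, Fin.sum_univ_zero, add_zero]
    rw [show (fun j : Fin 0 => (Fin.cons s t : Fin (0 + 1) → V) ((0 : Fin (0 + 1)).succAbove j)) = t
      from Subsingleton.elim _ _]
    simp

theorem single_eq_cone {n : ℕ} (t : Fin (n + 1) → V) (c : ℚ) :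
    Finsupp.single t c = cone (t 0) (Finsupp.single (Fin.tail t) c) := by
  rw [cone_single, Fin.cons_self_tail]

theorem bd_bd : ∀ {n : ℕ} (z : Chain V (n + 2)), bd (bd z) = 0 := by
  intro n
  induction n with
  | zero =>
    intro z
    induction z using Finsupp.induction_linear with
    | zero => simp
    | add x y hx hy => rw [map_add, map_add, hx, hy, add_zero]
    | single t c =>
      rw [single_eq_cone, bd_cone, map_sub, bd_cone_zero, sub_self]
  | succ n ih =>
    intro z
    induction z using Finsupp.induction_linear with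
    | zero => simp
    | add x y hx hy => rw [map_add, map_add, hx, hy, add_zero]
    | single t c =>
      rw [single_eq_cone, bd_cone, map_sub, bd_cone, ih, map_zero, sub_zero, sub_self]

theorem inCx_nerve {X : Type} (F : Set (Set X)) {n : ℕ} (t : Fin n → Set X) :
    InCx (nerve F) t ↔ (∀ i, t i ∈ F) ∧ ∃ x, ∀ i, x ∈ t i := by
  classical
  constructor
  · rintro ⟨σ, ⟨h1, x, hx⟩, h2⟩
    exact ⟨fun i => h1 _ ((h2 _).2 ⟨i, rfl⟩), x, fun i => hx _ ((h2 _).2 ⟨i, rfl⟩)⟩
  · rintro ⟨h1, x, hx⟩
    refine ⟨univ.image t, ⟨?_, x, ?_⟩, ?_⟩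
    · intro f hf
      obtain ⟨i, -, rfl⟩ := mem_image.1 hf
      exact h1 i
    · intro f hf
      obtain ⟨i, -, rfl⟩ := mem_image.1 hf
      exact hx i
    · intro v
      simp

/-- the chains of `K` form a submodule -/
noncomputable def sub (K : Set (Finset V)) (n : ℕ) : Submodule ℚ (Chain V n) :=
  Finsupp.supported ℚ ℚ {t | InCx K t}

theorem mem_sub {K : Set (Finset V)} {n : ℕ} {z : Chain V n} : z ∈ sub K n ↔ IsChain K z := by
  unfold sub
  rw [Finsupp.mem_supported]
  rfl

theorem single_mem {K : Set (Finset V)} {n : ℕ} {t : Fin n → V} (c : ℚ) (h : InCx K t) :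
    Finsupp.single t c ∈ sub K n := Finsupp.single_mem_supported ℚ c h

theorem bd_mem_nerve {X : Type} (F : Set (Set X)) {n : ℕ} {z : Chain (Set X) (n + 1)}
    (hz : z ∈ sub (nerve F) (n + 1)) : bd z ∈ sub (nerve F) n := by
  have : z = z.sum fun t c => Finsupp.single t c := (Finsupp.sum_single z).symm
  rw [this, map_finsuppSum]
  refine Submodule.sum_mem _ fun t ht => ?_
  dsimp only
  rw [bd_single]
  refine Submodule.sum_mem _ fun i _ => single_mem _ ?_
  have := (inCx_nerve F t).1 (mem_sub.1 hz t ht)
  obtain ⟨h1, x, hx⟩ := this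
  exact (inCx_nerve F _).2 ⟨fun j => h1 _, x, fun j => hx _⟩

end chains2

/-! ### The construction -/

section construction

variable {X : Type}

/-- the subcube `{y : y ∆ x ⊆ S}` of the power set of `X` -/
def cube (S x : Set X) : Set (Set X) := {y | symmDiff y x ⊆ S}

/-- the family of all subcubes whose set of directions belongs to `F` -/
def next (F : Set (Set X)) : Set (Set (Set X)) := {C | ∃ S ∈ F, ∃ x, C = cube S x}

/-- the set of directions of a subcube -/
def dir (C : Set (Set X)) : Set X := {a | ∃ y ∈ C, ∃ y' ∈ C, a ∈ symmDiff y y'}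

theorem mem_cube_self (S x : Set X) : x ∈ cube S x := by
  simp [cube]

theorem dir_cube (S x : Set X) : dir (cube S x) = S := by
  ext a
  constructor
  · rintro ⟨y, hy, y', hy', ha⟩
    have h1 := @hy a
    have h2 := @hy' a
    rw [Set.mem_symmDiff] at h1 h2 ha
    by_contra hS
    tauto
  · intro ha
    refine ⟨x, mem_cube_self S x, symmDiff x {a}, ?_, ?_⟩
    · intro b hb
      rw [Set.mem_symmDiff, Set.mem_symmDiff, Set.mem_singleton_iff] at hb
      by_cases hba : b = a
      · rw [hba]; exact ha
      · tauto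
    · rw [Set.mem_symmDiff, Set.mem_symmDiff, Set.mem_singleton_iff]
      tauto

theorem cube_eq {S x y : Set X} (h : y ∈ cube S x) : cube S x = cube S y := by
  ext z
  constructor
  · intro hz a ha
    have h1 := @hz a
    have h2 := @h a
    rw [Set.mem_symmDiff] at h1 h2 ha
    by_contra hS
    tauto
  · intro hz a ha
    have h1 := @hz a
    have h2 := @h a
    rw [Set.mem_symmDiff] at h1 h2 ha
    by_contra hS
    tauto

theorem cube_flip {S : Set X} {a : X} (ha : a ∈ S) (y : Set X) :
    cube S (symmDiff y {a}) = cube S y := by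
  refine (cube_eq ?_).symm
  intro b hb
  rw [Set.mem_symmDiff, Set.mem_symmDiff, Set.mem_singleton_iff] at hb
  by_cases hba : b = a
  · rw [hba]; exact ha
  · tauto

/-- three pairwise intersecting subcubes -/
theorem three {S₁ S₂ S₃ x₁ x₂ x₃ p₁ p₂ p₃ : Set X} (h31 : p₃ ∈ cube S₁ x₁) (h32 : p₃ ∈ cube S₂ x₂)
    (h33 : p₃ ∉ cube S₃ x₃) (h21 : p₂ ∈ cube S₁ x₁) (h23 : p₂ ∈ cube S₃ x₃)
    (h12 : p₁ ∈ cube S₂ x₂) (h13 : p₁ ∈ cube S₃ x₃) :
    ∃ a, a ∈ S₁ ∧ a ∈ S₂ ∧ a ∉ S₃ := by
  obtain ⟨a, ha, haS⟩ := Set.not_subset.1 h33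
  have e1 := @h31 a
  have e2 := @h32 a
  have e3 := @h21 a
  have e4 := @h23 a
  have e5 := @h12 a
  have e6 := @h13 a
  rw [Set.mem_symmDiff] at ha e1 e2 e3 e4 e5 e6
  have e4' := fun hh => haS (e4 hh)
  have e6' := fun hh => haS (e6 hh)
  refine ⟨a, ?_, ?_, haS⟩
  · by_contra h
    have e1' := fun hh => h (e1 hh)
    have e3' := fun hh => h (e3 hh)
    clear e1 e2 e3 e4 e5 e6 e6' h h31 h32 h33 h21 h23 h12 h13
    tauto
  · by_contra h
    have e2' := fun hh => h (e2 hh)
    have e5' := fun hh => h (e5 hh)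
    clear e1 e2 e3 e4 e5 e6 e4' h h31 h32 h33 h21 h23 h12 h13
    tauto

theorem comatching_next {F : Set (Set X)} (h : ComatchingLe F 2) : ComatchingLe (next F) 2 := by
  classical
  intro M hMF hM
  by_contra hcard
  push Not at hcard
  obtain ⟨C₁, h1, C₂, h2, C₃, h3, h12, h13, h23⟩ := two_lt_card.1 hcard
  obtain ⟨S₁, hS1, x₁, rfl⟩ := hMF _ h1
  obtain ⟨S₂, hS2, x₂, rfl⟩ := hMF _ h2
  obtain ⟨S₃, hS3, x₃, rfl⟩ := hMF _ h3
  obtain ⟨p₁, hp1, hp1'⟩ := hM _ h1
  obtain ⟨p₂, hp2, hp2'⟩ := hM _ h2
  obtain ⟨p₃, hp3, hp3'⟩ := hM _ h3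
  have e12 := hp1' _ h2 h12.symm
  have e13 := hp1' _ h3 h13.symm
  have e21 := hp2' _ h1 h12
  have e23 := hp2' _ h3 h23.symm
  have e31 := hp3' _ h1 h13
  have e32 := hp3' _ h2 h23
  obtain ⟨a₃, a31, a32, a33⟩ := three e31 e32 hp3 e21 e23 e12 e13
  obtain ⟨a₂, a21, a23, a22⟩ := three e21 e23 hp2 e31 e32 e13 e12
  obtain ⟨a₁, a12, a13, a11⟩ := three e12 e13 hp1 e32 e31 e23 e21
  have n12 : S₁ ≠ S₂ := fun h => a22 (h ▸ a21)
  have n13 : S₁ ≠ S₃ := fun h => a33 (h ▸ a31)
  have n23 : S₂ ≠ S₃ := fun h => a33 (h ▸ a32)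
  have := h {S₁, S₂, S₃} (by
    intro f hf
    simp only [mem_insert, mem_singleton] at hf
    rcases hf with rfl | rfl | rfl
    · exact hS1
    · exact hS2
    · exact hS3) (by
    intro f hf
    simp only [mem_insert, mem_singleton] at hf
    rcases hf with rfl | rfl | rfl
    · refine ⟨a₁, a11, fun g hg hne => ?_⟩
      simp only [mem_insert, mem_singleton] at hg
      rcases hg with rfl | rfl | rfl
      · exact absurd rfl hne
      · exact a12
      · exact a13
    · refine ⟨a₂, a22, fun g hg hne => ?_⟩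
      simp only [mem_insert, mem_singleton] at hg
      rcases hg with rfl | rfl | rfl
      · exact a21
      · exact absurd rfl hne
      · exact a23
    · refine ⟨a₃, a33, fun g hg hne => ?_⟩
      simp only [mem_insert, mem_singleton] at hg
      rcases hg with rfl | rfl | rfl
      · exact a31
      · exact a32
      · exact absurd rfl hne)
  rw [card_eq_three.2 ⟨S₁, S₂, S₃, n12, n13, n23, rfl⟩] at this
  omega

/-! ### The chain maps -/

/-- the sign of a subset -/
noncomputable def chi (y : Set X) : ℚ := (-1) ^ y.ncard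

theorem chi_sq (y : Set X) : chi y * chi y = 1 := by
  unfold chi
  rw [← mul_pow]
  norm_num

theorem chi_flip [Finite X] (y : Set X) (a : X) : chi (symmDiff y {a}) = -chi y := by
  unfold chi
  by_cases ha : a ∈ y
  · have h1 : symmDiff y {a} = y \ {a} := by
      ext b
      rw [Set.mem_symmDiff, Set.mem_singleton_iff, Set.mem_sdiff, Set.mem_singleton_iff]
      constructor
      · rintro (h | ⟨rfl, h⟩)
        · exact h
        · exact absurd ha h
      · intro h
        exact Or.inl h
    rw [h1]
    have h2 := Set.ncard_sdiff_singleton_add_one ha (Set.toFinite y)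
    rw [← h2, pow_succ]
    ring
  · have h1 : symmDiff y {a} = insert a y := by
      ext b
      rw [Set.mem_symmDiff, Set.mem_singleton_iff, Set.mem_insert_iff]
      constructor
      · rintro (h | h)
        · exact Or.inr h.1
        · exact Or.inl h.1
      · rintro (rfl | h)
        · exact Or.inr ⟨rfl, ha⟩
        · exact Or.inl ⟨h, fun h' => ha (h' ▸ h)⟩
    rw [h1, Set.ncard_insert_of_notMem ha (Set.toFinite y), pow_succ]
    ring

variable [Fintype X]

/-- the transfer map -/
noncomputable def psi (n : ℕ) : Chain (Set X) n →ₗ[ℚ] Chain (Set (Set X)) n :=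
  ∑ y : Set X, chi y • push fun S => cube S y

theorem psi_single {n : ℕ} (t : Fin n → Set X) (c : ℚ) :
    psi n (Finsupp.single t c) =
      ∑ y : Set X, chi y • Finsupp.single (fun i => cube (t i) y) c := by
  unfold psi
  rw [LinearMap.sum_apply]
  refine Finset.sum_congr rfl fun y _ => ?_
  rw [LinearMap.smul_apply, push_single]
  rfl

theorem bd_psi {n : ℕ} (w : Chain (Set X) (n + 1)) : bd (psi (n + 1) w) = psi n (bd w) := by
  unfold psi
  rw [LinearMap.sum_apply, LinearMap.sum_apply, map_sum]
  refine Finset.sum_congr rfl fun y _ => ?_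
  rw [LinearMap.smul_apply, LinearMap.smul_apply, map_smul, bd_push]

theorem psi_zero {n : ℕ} (F : Set (Set X)) {z : Chain (Set X) n} (hz : z ∈ sub (nerve F) n) :
    psi n z = 0 := by
  have h0 : z = z.sum fun t c => Finsupp.single t c := (Finsupp.sum_single z).symm
  rw [h0, map_finsuppSum]
  refine Finset.sum_eq_zero fun t ht => ?_
  obtain ⟨-, a, ha⟩ := (inCx_nerve F t).1 (mem_sub.1 hz t ht)
  dsimp only
  rw [psi_single]
  set c := z t
  set A := ∑ y : Set X, chi y • Finsupp.single (fun i => cube (t i) y) c with hA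
  have h1 : A = -A := by
    have hinv : Function.Involutive fun y : Set X => symmDiff y {a} := fun y => by simp
    conv_lhs => rw [hA]
    rw [← Equiv.sum_comp (Function.Involutive.toPerm _ hinv)]
    rw [hA, ← Finset.sum_neg_distrib]
    refine Finset.sum_congr rfl fun y _ => ?_
    have e : (Function.Involutive.toPerm _ hinv) y = symmDiff y {a} := rfl
    rw [e, chi_flip, neg_smul]
    congr 3
    funext i
    exact cube_flip (ha i) y
  have h2 : (2 : ℚ) • A = 0 := by
    rw [two_smul]
    nth_rewrite 1 [h1]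
    exact neg_add_cancel A
  exact (smul_eq_zero.1 h2).resolve_left (by norm_num)

open Classical in
/-- the coefficient of the projection -/
noncomputable def coef {n : ℕ} (T : Fin n → Set (Set X)) : ℚ :=
  if ∃ a, ∀ i, a ∈ dir (T i) then 0 else
    if h : ∃ y, ∀ i, y ∈ T i then chi h.choose else 0

/-- the projection -/
noncomputable def phi (n : ℕ) : Chain (Set (Set X)) n →ₗ[ℚ] Chain (Set X) n :=
  Finsupp.lsum ℚ fun T => coef T • Finsupp.lsingle (fun i => dir (T i))

theorem phi_single {n : ℕ} (T : Fin n → Set (Set X)) (c : ℚ) :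
    phi n (Finsupp.single T c) = Finsupp.single (fun i => dir (T i)) (coef T * c) := by
  unfold phi
  rw [Finsupp.lsum_single, LinearMap.smul_apply, Finsupp.lsingle_apply, Finsupp.smul_single,
    smul_eq_mul]

theorem coef_common {n : ℕ} (t : Fin n → Set X) (y : Set X) (h : ∃ a, ∀ i, a ∈ t i) :
    coef (fun i => cube (t i) y) = 0 := by
  unfold coef
  rw [if_pos]
  simpa [dir_cube] using h

theorem coef_not_common {n : ℕ} (t : Fin n → Set X) (y : Set X) (h : ¬ ∃ a, ∀ i, a ∈ t i) :
    coef (fun i => cube (t i) y) = chi y := by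
  unfold coef
  rw [if_neg (by simpa [dir_cube] using h)]
  have h1 : ∃ y', ∀ i, y' ∈ cube (t i) y := ⟨y, fun i => mem_cube_self _ _⟩
  rw [dif_pos h1]
  have h2 := h1.choose_spec
  congr 1
  by_contra hne
  apply h
  obtain ⟨a, ha⟩ : ∃ a, a ∈ symmDiff h1.choose y := by
    by_contra hno
    apply hne
    ext a
    by_contra hcon
    apply hno
    refine ⟨a, ?_⟩
    rw [Set.mem_symmDiff]
    tauto
  exact ⟨a, fun i => h2 i ha⟩

theorem phi_psi (F : Set (Set X)) {n : ℕ} {w : Chain (Set X) n}
    (hw : ∀ t ∈ w.support, ∀ i, t i ∈ F) :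
    phi n (psi n w) - (Fintype.card (Set X) : ℚ) • w ∈ sub (nerve F) n := by
  have h0 : w = w.sum fun t c => Finsupp.single t c := (Finsupp.sum_single w).symm
  have h1 : phi n (psi n w) - (Fintype.card (Set X) : ℚ) • w =
      w.sum fun t c => (phi n (psi n (Finsupp.single t c)) -
        (Fintype.card (Set X) : ℚ) • Finsupp.single t c) := by
    conv_lhs => rw [h0]
    rw [map_finsuppSum, map_finsuppSum, Finsupp.smul_sum, ← Finsupp.sum_sub]
  rw [h1]
  refine Submodule.sum_mem _ fun t ht => ?_
  dsimp only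
  set c := w t
  rw [psi_single, map_sum]
  by_cases h : ∃ a, ∀ i, a ∈ t i
  · have h2 : ∀ y : Set X, phi n (chi y • Finsupp.single (fun i => cube (t i) y) c) = 0 := by
      intro y
      rw [map_smul, phi_single, coef_common t y h, zero_mul, Finsupp.single_zero, smul_zero]
    rw [Finset.sum_congr rfl fun y _ => h2 y, Finset.sum_const_zero, zero_sub]
    refine Submodule.neg_mem _ (Submodule.smul_mem _ _ (single_mem _ ?_))
    exact (inCx_nerve F t).2 ⟨hw t ht, h⟩
  · have h2 : ∀ y : Set X, phi n (chi y • Finsupp.single (fun i => cube (t i) y) c) =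
        Finsupp.single t c := by
      intro y
      rw [map_smul, phi_single, coef_not_common t y h, Finsupp.smul_single, smul_eq_mul,
        ← mul_assoc, chi_sq, one_mul]
      congr 1
      funext i
      exact dir_cube _ _
    rw [Finset.sum_congr rfl fun y _ => h2 y, Finset.sum_const, Finset.card_univ,
      ← Nat.cast_smul_eq_nsmul ℚ, sub_self]
    exact Submodule.zero_mem _

theorem phi_bd (F : Set (Set X)) {n : ℕ} {u : Chain (Set (Set X)) (n + 1)}
    (hu : u ∈ sub (nerve (next F)) (n + 1)) :
    phi n (bd u) - bd (phi (n + 1) u) ∈ sub (nerve F) n := by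
  have h0 : u = u.sum fun t c => Finsupp.single t c := (Finsupp.sum_single u).symm
  have h1 : phi n (bd u) - bd (phi (n + 1) u) =
      u.sum fun t c => (phi n (bd (Finsupp.single t c)) -
        bd (phi (n + 1) (Finsupp.single t c))) := by
    conv_lhs => rw [h0]
    rw [map_finsuppSum, map_finsuppSum, map_finsuppSum, map_finsuppSum, ← Finsupp.sum_sub]
  rw [h1]
  refine Submodule.sum_mem _ fun T hT => ?_
  dsimp only
  set c := u T
  obtain ⟨hF, y, hy⟩ := (inCx_nerve (next F) T).1 (mem_sub.1 hu T hT)
  obtain ⟨t, ht⟩ : ∃ t : Fin (n + 1) → Set X, ∀ i, t i ∈ F ∧ T i = cube (t i) y := by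
    have : ∀ i, ∃ S ∈ F, T i = cube S y := by
      intro i
      obtain ⟨S, hS, x, hx⟩ := hF i
      refine ⟨S, hS, ?_⟩
      rw [hx]
      apply cube_eq
      rw [← hx]
      exact hy i
    choose t ht ht' using this
    exact ⟨t, fun i => ⟨ht i, ht' i⟩⟩
  have hTt : T = fun i => cube (t i) y := funext fun i => (ht i).2
  rw [bd_single, map_sum, phi_single, bd_single, ← Finset.sum_sub_distrib]
  refine Submodule.sum_mem _ fun j _ => ?_
  rw [phi_single]
  subst hTt
  simp only [dir_cube]
  have e1 : coef (fun i : Fin n => cube (t (j.succAbove i)) y) =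
      coef (fun i => cube ((fun i => t (j.succAbove i)) i) y) := rfl
  rw [e1]
  by_cases h : ∃ a, ∀ i, a ∈ t i
  · have h' : ∃ a, ∀ i, a ∈ (fun i => t (j.succAbove i)) i := by
      obtain ⟨a, ha⟩ := h
      exact ⟨a, fun i => ha _⟩
    rw [coef_common t y h, coef_common _ y h']
    simp
  · rw [coef_not_common t y h]
    by_cases h' : ∃ a, ∀ i, a ∈ (fun i => t (j.succAbove i)) i
    · rw [coef_common _ y h', zero_mul, Finsupp.single_zero, zero_sub]
      refine Submodule.neg_mem _ (single_mem _ ?_)
      exact (inCx_nerve F _).2 ⟨fun i => (ht _).1, h'⟩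
    · rw [coef_not_common _ y h']
      have : chi y * ((-1) ^ (j : ℕ) * c) = (-1) ^ (j : ℕ) * (chi y * c) := by ring
      rw [this, sub_self]
      exact Submodule.zero_mem _

/-- the homology moves up by one degree -/
theorem step {F : Set (Set X)} (hF : F.Nonempty) {n : ℕ} (h : ¬ HomologyVanishes (nerve F) n) :
    ¬ HomologyVanishes (nerve (next F)) (n + 1) := by
  intro hv
  apply h
  intro z hz hbz
  obtain ⟨S₀, hS₀⟩ := hF
  have hw : bd (cone S₀ z) = z := by rw [bd_cone, hbz, map_zero, sub_zero]
  have hwF : ∀ t ∈ (cone S₀ z).support, ∀ i, t i ∈ F := by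
    intro t ht i
    have h1 := Finsupp.mapDomain_support ht
    obtain ⟨t', ht', rfl⟩ := mem_image.1 h1
    refine Fin.cases ?_ (fun j => ?_) i
    · exact hS₀
    · exact ((inCx_nerve F t').1 (hz t' ht')).1 j
  set w := cone S₀ z with hwdef
  have hchain : IsChain (nerve (next F)) (psi (n + 2) w) := by
    rw [← mem_sub]
    have h0 : w = w.sum fun t c => Finsupp.single t c := (Finsupp.sum_single w).symm
    rw [h0, map_finsuppSum]
    refine Submodule.sum_mem _ fun t ht => ?_
    dsimp only
    rw [psi_single]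
    refine Submodule.sum_mem _ fun y _ => Submodule.smul_mem _ _ (single_mem _ ?_)
    exact (inCx_nerve _ _).2 ⟨fun i => ⟨t i, hwF t ht i, y, rfl⟩, y, fun i => mem_cube_self _ _⟩
  have hcyc : bd (psi (n + 2) w) = 0 := by
    rw [bd_psi, hw]
    exact psi_zero F (mem_sub.2 hz)
  obtain ⟨u, hu, hbu⟩ := hv _ hchain hcyc
  have h1 := phi_bd F (mem_sub.2 hu)
  rw [hbu] at h1
  have h2 := phi_psi F hwF
  set N : ℚ := (Fintype.card (Set X) : ℚ) with hN
  have hNpos : N ≠ 0 := by
    rw [hN]
    exact_mod_cast Fintype.card_ne_zero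
  set k := (phi (n + 2) (psi (n + 2) w) - bd (phi (n + 2 + 1) u)) -
    (phi (n + 2) (psi (n + 2) w) - N • w) with hk
  have hkmem : k ∈ sub (nerve F) (n + 2) := Submodule.sub_mem _ h1 h2
  have hkeq : k = N • w - bd (phi (n + 2 + 1) u) := by rw [hk]; abel
  have hbk : bd k = N • z := by
    rw [hkeq, map_sub, bd_bd, sub_zero, map_smul, hw]
  refine ⟨N⁻¹ • k, mem_sub.1 (Submodule.smul_mem _ _ hkmem), ?_⟩
  rw [map_smul, hbk, smul_smul, inv_mul_cancel₀ hNpos, one_smul]

end construction

/-! ### The start -/

/-- two disjoint points -/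
def start : Set (Set Bool) := {{true}, {false}}

theorem comatching_start : ComatchingLe start 2 := by
  classical
  intro M hM _
  have : M ⊆ {{true}, {false}} := by
    intro f hf
    have := hM f hf
    simpa [start] using this
  exact (card_le_card this).trans card_le_two

theorem homology_start : ¬ HomologyVanishes (nerve start) 0 := by
  intro h
  have hne : (fun _ : Fin (0 + 1) => ({true} : Set Bool)) ≠ fun _ => {false} := by
    intro h
    have := congrFun h 0
    simp at this
  obtain ⟨w, hw, hbw⟩ := h (Finsupp.single (fun _ => {true}) 1 - Finsupp.single (fun _ => {false}) 1)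
    (by
      rw [← mem_sub]
      refine Submodule.sub_mem _ (single_mem _ ?_) (single_mem _ ?_)
      · exact (inCx_nerve _ _).2 ⟨fun i => by simp [start], true, fun i => by simp⟩
      · exact (inCx_nerve _ _).2 ⟨fun i => by simp [start], false, fun i => by simp⟩)
    (by
      rw [map_sub, bd_single, bd_single, sub_eq_zero]
      refine Finset.sum_congr rfl fun i _ => ?_
      congr 1
      exact Subsingleton.elim _ _)
  have h0 : bd w = 0 := by
    have h0 : w = w.sum fun t c => Finsupp.single t c := (Finsupp.sum_single w).symm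
    rw [h0, map_finsuppSum]
    refine Finset.sum_eq_zero fun t ht => ?_
    dsimp only
    obtain ⟨h1, x, hx⟩ := (inCx_nerve start t).1 (hw t ht)
    have hc : ∀ i j, t i = t j := by
      intro i j
      have a1 := h1 i
      have a2 := h1 j
      have b1 := hx i
      have b2 := hx j
      simp only [start, Set.mem_insert_iff, Set.mem_singleton_iff] at a1 a2
      rcases a1 with a1 | a1 <;> rcases a2 with a2 | a2 <;> rw [a1] at b1 ⊢ <;> rw [a2] at b2 ⊢
      · simp only [Set.mem_singleton_iff] at b1 b2
        rw [b1] at b2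
        exact absurd b2 (by decide)
      · simp only [Set.mem_singleton_iff] at b1 b2
        rw [b1] at b2
        exact absurd b2 (by decide)
    rw [bd_single, Fin.sum_univ_two]
    have e : (fun j => t ((0 : Fin 2).succAbove j)) = fun j => t ((1 : Fin 2).succAbove j) :=
      funext fun j => hc _ _
    have e' : (fun j : Fin (0 + 1) => t ((0 : Fin (0 + 1 + 1)).succAbove j)) =
        fun j => t ((1 : Fin (0 + 1 + 1)).succAbove j) := e
    rw [e', ← Finsupp.single_add]
    simp
  rw [h0] at hbw
  have h1 := congrArg (fun f => f (fun _ : Fin (0 + 1) => ({true} : Set Bool))) hbw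
  simp only [Finsupp.coe_sub, Pi.sub_apply, Finsupp.single_eq_same, Finsupp.coe_zero,
    Pi.zero_apply] at h1
  rw [Finsupp.single_eq_of_ne hne] at h1
  norm_num at h1

/-- for every `n` there is a finite family with comatching number at most two, whose nerve has
nonzero homology in degree `n` -/
theorem exists_family (n : ℕ) : ∃ (X : Type) (_ : Fintype X) (F : Set (Set X)), F.Nonempty ∧
    ComatchingLe F 2 ∧ ¬ HomologyVanishes (nerve F) n := by
  induction n with
  | zero => exact ⟨Bool, inferInstance, start, ⟨{true}, by simp [start]⟩, comatching_start,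
      homology_start⟩
  | succ n ih =>
    obtain ⟨X, hX, F, hF, h1, h2⟩ := ih
    refine ⟨Set X, inferInstance, next F, ?_, comatching_next h1, step hF h2⟩
    obtain ⟨S, hS⟩ := hF
    exact ⟨cube S ∅, S, hS, ∅, rfl⟩

/-- For every `n` there is a finite set `X` and a family `F` of subsets of `X` with comatching number
at most two whose nerve has nonzero reduced rational homology in degree `n`. So there is no constant
`d` such that the nerves of all families with comatching number at most two are `d`-Leray. -/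
theorem result :
    (∀ n : ℕ, ∃ (X : Type) (_ : Fintype X) (F : Set (Set X)),
      ComatchingLe F 2 ∧ ¬ HomologyVanishes (nerve F) n) ∧
    ¬ ∃ d : ℕ, 0 < d ∧ ∀ (X : Type) (F : Set (Set X)), ComatchingLe F 2 → IsLeray d (nerve F) := by
  refine ⟨fun n => ?_, ?_⟩
  · obtain ⟨X, hX, F, -, h1, h2⟩ := exists_family n
    exact ⟨X, hX, F, h1, h2⟩
  · rintro ⟨d, -, h⟩
    obtain ⟨X, hX, F, -, h1, h2⟩ := exists_family d
    apply h2
    have := h X F h1 Set.univ d le_rfl
    have e : induced (nerve F) Set.univ = nerve F := by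
      ext σ
      simp [induced]
    rwa [e] at this

end Pool.Agent.Results.MP_587f0f_co.NoConstant
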